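import Pool.Agent.Helper61.AltMain

set_option autoImplicit false

/-!
For every odd `k ≥ 3` the two alternating signatures of size `k` are c-Wilf-equivalent.
-/

namespace Pool.Agent.Results.MP_ccaf84_co.AltCWilf

open Equiv

/-- The `σ`-class: `π` (in one-line notation `π 0, π 1, ..., π (n-1)`) has a `σ`-segmentation
`0 = e 0 ≤ e 1 ≤ ... ≤ e k = n` such that `π` is increasing on the positions
`e i, ..., e (i+1) - 1` if `σ i = true` (the sign `+`) and decreasing there if `σ i = false`
(the sign `-`). -/
def InClass {n k : ℕ} (σ : Fin k → Bool) (π : Perm (Fin n)) : Prop :=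
  ∃ e : Fin (k + 1) → ℕ, e 0 = 0 ∧ e (Fin.last k) = n ∧ Monotone e ∧
    ∀ i : Fin k, ∀ a b : Fin n, e i.castSucc ≤ (a : ℕ) → a < b → (b : ℕ) < e i.succ →
      if σ i then π a < π b else π b < π a

/-- The number of cyclic permutations of `n` points (a single `n`-cycle) in the `σ`-class. -/
noncomputable def cycCount (n : ℕ) {k : ℕ} (σ : Fin k → Bool) : ℕ :=
  Nat.card {π : Perm (Fin n) // π.IsCycleOn Set.univ ∧ InClass σ π}

/-- c-Wilf-equivalence of two signatures. -/
def CWilfEquivalent {k l : ℕ} (σ : Fin k → Bool) (τ : Fin l → Bool) : Prop :=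
  ∀ n : ℕ, 1 ≤ n → cycCount n σ = cycCount n τ

/-- The alternating signature of size `k` with first sign `b` (`true` is `+`, `false` is `-`). -/
def alternating (k : ℕ) (b : Bool) (i : Fin k) : Bool := if (i : ℕ) % 2 = 0 then b else !b

open Pool.Agent.Helper61.Alt in
lemma inClass_iff {n k : ℕ} (σ : Fin k → Bool) (π : Perm (Fin n)) :
    InClass σ π ↔ ∃ s : Fin n → Fin k, Valid σ π s := by
  classical
  constructor
  · rintro ⟨e, he0, hen, hmono, he⟩
    have hex : ∀ a : Fin n, ∃ i : Fin k, e i.castSucc ≤ (a : ℕ) ∧ (a : ℕ) < e i.succ := by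
      intro a
      by_contra hcon
      push Not at hcon
      have hall : ∀ i : Fin (k + 1), e i ≤ (a : ℕ) := by
        intro i
        induction i using Fin.induction with
        | zero => rw [he0]; exact Nat.zero_le _
        | succ i ih => exact hcon i ih
      have := hall (Fin.last k)
      rw [hen] at this
      exact absurd a.2 (not_lt.mpr this)
    choose s hs1 hs2 using hex
    refine ⟨s, ?_, ?_⟩
    · intro a b hab
      by_contra hcon
      have h1 : s b < s a := not_le.mp hcon
      have h2 : (s b).succ ≤ (s a).castSucc := by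
        rw [Fin.le_def]
        exact h1
      have h3 := hmono h2
      have h4 := hs2 b
      have h5 := hs1 a
      have h6 : (a : ℕ) < b := hab
      omega
    · intro a b hab hs
      have h1 := he (s a) a b (hs1 a) hab (by rw [hs]; exact hs2 b)
      constructor
      · intro h; rwa [if_pos h] at h1
      · intro h; rw [h] at h1; simpa using h1
  · rintro ⟨s, hmono, hs⟩
    let e : Fin (k + 1) → ℕ := fun i => (Finset.univ.filter (fun a : Fin n => (s a : ℕ) < i)).card
    have hmono' : ∀ a b : Fin n, a ≤ b → s a ≤ s b := by
      intro a b hab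
      rcases eq_or_lt_of_le hab with h | h
      · rw [h]
      · exact hmono a b h
    have hlt : ∀ (i : Fin (k + 1)) (a : Fin n), (a : ℕ) < e i → (s a : ℕ) < i := by
      intro i a h
      by_contra hcon
      have hsub : Finset.univ.filter (fun x : Fin n => (s x : ℕ) < i) ⊆ Finset.Iio a := by
        intro x hx
        rw [Finset.mem_filter] at hx
        rw [Finset.mem_Iio]
        by_contra hxa
        have := hmono' a x (not_lt.mp hxa)
        rw [Fin.le_def] at this
        omega
      have := Finset.card_le_card hsub
      rw [Fin.card_Iio] at this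
      exact absurd h (not_lt.mpr this)
    have hge : ∀ (i : Fin (k + 1)) (a : Fin n), e i ≤ (a : ℕ) → (i : ℕ) ≤ (s a : ℕ) := by
      intro i a h
      by_contra hcon
      have hsub : Finset.Iic a ⊆ Finset.univ.filter (fun x : Fin n => (s x : ℕ) < i) := by
        intro x hx
        rw [Finset.mem_Iic] at hx
        rw [Finset.mem_filter]
        refine ⟨Finset.mem_univ _, ?_⟩
        have := hmono' x a hx
        rw [Fin.le_def] at this
        omega
      have := Finset.card_le_card hsub
      rw [Fin.card_Iic] at this
      have h2 : (a : ℕ) + 1 ≤ e i := this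
      omega
    refine ⟨e, ?_, ?_, ?_, ?_⟩
    · simp [e]
    · simp only [e, Fin.val_last]
      rw [Finset.filter_true_of_mem (fun a _ => (s a).2), Finset.card_univ, Fintype.card_fin]
    · intro i j hij
      apply Finset.card_le_card
      intro x hx
      rw [Finset.mem_filter] at hx ⊢
      refine ⟨hx.1, lt_of_lt_of_le hx.2 ?_⟩
      exact hij
    · intro i a b ha hab hb
      have h1 := hge _ _ ha
      have h2 := hlt _ _ hb
      have h3 := hmono a b hab
      rw [Fin.le_def] at h3
      rw [Fin.val_castSucc] at h1
      rw [Fin.val_succ] at h2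
      have ea : s a = i := Fin.ext (by omega)
      have eb : s b = i := Fin.ext (by omega)
      have := hs a b hab (ea.trans eb.symm)
      rw [ea] at this
      cases hσ : σ i
      · simpa using this.2 hσ
      · simpa using this.1 hσ

/-- For every odd `k ≥ 3` the two alternating signatures of size `k` are c-Wilf-equivalent. -/
theorem result (k : ℕ) (hk : Odd k) (hk3 : 3 ≤ k) :
    CWilfEquivalent (alternating k true) (alternating k false) := by
  classical
  intro n hn
  have hcard : ∀ σ : Fin k → Bool, cycCount n σ =
      ((Pool.Agent.Helper61.Alt.cycs n).filter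
        (fun π => ∃ s : Fin n → Fin k, Pool.Agent.Helper61.Alt.Valid σ π s)).card := by
    intro σ
    unfold cycCount Pool.Agent.Helper61.Alt.cycs
    rw [Nat.card_eq_fintype_card, Fintype.card_subtype, Finset.filter_filter]
    congr 1
    apply Finset.filter_congr
    intro π _
    rw [inClass_iff]
  rw [hcard, hcard]
  by_cases hn2 : n = 2
  · subst hn2
    have hall : ∀ (σ : Fin k → Bool) (π : Perm (Fin 2)),
        ∃ s : Fin 2 → Fin k, Pool.Agent.Helper61.Alt.Valid σ π s := by
      intro σ π
      refine ⟨fun i => ⟨i, by have := i.2; omega⟩, ?_, ?_⟩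
      · intro i j hij
        exact hij.le
      · intro i j hij hs
        exfalso
        have : (i : ℕ) = j := by simpa using hs
        exact absurd (Fin.ext this) hij.ne
    rw [Finset.filter_true_of_mem (fun π _ => hall _ π),
      Finset.filter_true_of_mem (fun π _ => hall _ π)]
  · obtain ⟨t, ht⟩ := hk
    subst ht
    exact Pool.Agent.Helper61.Alt.card_class_eq (by omega) hn2 (K := 2 * t) (by simp)

end Pool.Agent.Results.MP_ccaf84_co.AltCWilf
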